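import Pool.Agent.W610.HY.Reduct

/-!
# MP_49c4d9_an: reductive essentially normal operators with log-integrable resolvent are normal

Let `T` be a reductive operator on a complex Hilbert space such that `T*T - TT*` is compact, the spectrum
of `T` is a null set of the plane and `log⁺ ‖(z - T)⁻¹‖` is integrable (area) on a neighbourhood of the
spectrum.  Then `T` is normal.  No curve or other geometric structure is assumed of the spectrum.

The proof combines two things.  (a) The minimal dimension argument of helper706 (hand-in
`ReductiveRectifiable`): if a reductive operator `T` with compact self-commutator is not normal, some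
restriction of `T` to a hyperinvariant (hence reducing) subspace is not scalar and has no nontrivial
hyperinvariant subspace.  (b) A new theorem on hyperinvariant subspaces (`Pool.Agent.W610.HY`): an operator
on a Banach space whose spectrum meets an open set `U` in a null set with at least two points and for which
`log⁺ ‖(z - T)⁻¹‖` is integrable on `U` has a nontrivial hyperinvariant subspace; the proof uses outer
functions on two generic circles, which may cross the spectrum in Cantor sets of length zero.
The hypotheses of (b) pass to restrictions to reducing subspaces.  A restriction whose spectrum is one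
point is compact up to a scalar.

`expGrowth`: the assumption holds if the area of the `δ`-neighbourhood of the spectrum is `O(δ^(k + ε))` and
the resolvent grows at most like `exp (C dist(z, σ(T))^(-k))`.
-/

set_option autoImplicit false

open MeasureTheory Metric

namespace Pool.Agent.Results.MP_49c4d9_an.ReductiveLogIntegrable

/-- **Theorem.** A reductive operator `T` with compact self-commutator, null spectrum and
`log⁺ ‖(z - T)⁻¹‖` integrable on a neighbourhood of the spectrum is normal. -/
theorem result (H : Type) [NormedAddCommGroup H] [InnerProductSpace ℂ H] [CompleteSpace H]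
    (T : H →L[ℂ] H)
    -- `T` is reductive
    (hred : ∀ V : Submodule ℂ H, IsClosed (V : Set H) → (∀ x ∈ V, T x ∈ V) →
      ∀ x ∈ V, ContinuousLinearMap.adjoint T x ∈ V)
    -- the self-commutator is compact
    (hc : IsCompactOperator (ContinuousLinearMap.adjoint T * T -
      T * ContinuousLinearMap.adjoint T : H →L[ℂ] H))
    -- the spectrum is a null set
    (h0 : volume (spectrum ℂ T) = 0)
    -- integrability near the spectrum
    (U : Set ℂ) (hU : IsOpen U) (hsU : spectrum ℂ T ⊆ U)
    (hI : IntegrableOn (fun z : ℂ => Real.posLog ‖resolvent T z‖) U) :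
    IsStarNormal T :=
  Pool.Agent.W610.HY.Reduct.normal T hred hc U hU hsU h0 hI

/-- Resolvent growth of finite exponential order, spectrum with small neighbourhoods. -/
theorem expGrowth (H : Type) [NormedAddCommGroup H] [InnerProductSpace ℂ H] [CompleteSpace H]
    (T : H →L[ℂ] H)
    (hred : ∀ V : Submodule ℂ H, IsClosed (V : Set H) → (∀ x ∈ V, T x ∈ V) →
      ∀ x ∈ V, ContinuousLinearMap.adjoint T x ∈ V)
    (hc : IsCompactOperator (ContinuousLinearMap.adjoint T * T -
      T * ContinuousLinearMap.adjoint T : H →L[ℂ] H))
    (C k ε : ℝ) (hk : 0 ≤ k) (hε : 0 < ε)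
    (hR : ∀ z, z ∉ spectrum ℂ T → infDist z (spectrum ℂ T) < 1 →
      ‖resolvent T z‖ ≤ Real.exp (C * infDist z (spectrum ℂ T) ^ (-k)))
    (hV : ∀ δ : ℝ, 0 < δ → δ ≤ 1 →
      volume {z : ℂ | infDist z (spectrum ℂ T) ≤ δ} ≤ ENNReal.ofReal (C * δ ^ (k + ε))) :
    IsStarNormal T := by
  rcases subsingleton_or_nontrivial H with hs | hn
  · constructor
    ext x
    exact Subsingleton.elim _ _
  set U : Set ℂ := {z | infDist z (spectrum ℂ T) < 1} with hU
  have hne : (spectrum ℂ T).Nonempty := spectrum.nonempty T
  have hcp : IsCompact (spectrum ℂ T) := spectrum.isCompact T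
  have hUo : IsOpen U := isOpen_lt (continuous_infDist_pt _) continuous_const
  have hUb : Bornology.IsBounded U := by
    have h1 : U ⊆ Metric.cthickening 1 (spectrum ℂ T) := by
      intro z hz
      have hz1 : infDist z (spectrum ℂ T) < 1 := hz
      have := Metric.thickening_subset_cthickening (1 : ℝ) (spectrum ℂ T)
      apply this
      rw [Metric.mem_thickening_iff_infDist_lt hne]
      exact hz1
    exact hcp.isBounded.cthickening.subset h1
  have hsU : spectrum ℂ T ⊆ U := by
    intro z hz
    have : infDist z (spectrum ℂ T) = 0 := infDist_zero_of_mem hz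
    simp [hU, this]
  obtain ⟨h0, hI⟩ := Pool.Agent.W427.HY.MINK.main Pool.Agent.W610.HY.Fin.hMEAS (H →L[ℂ] H) T U
    (spectrum ℂ T) C k ε hUo hUb hcp.isClosed hk hε Set.inter_subset_left
    (fun z hz hz' => hR z hz' hz) (by
      intro δ hδ0 hδ1
      refine (measure_mono ?_).trans (hV δ hδ0 hδ1)
      rintro z ⟨_, hz⟩
      exact hz)
  rw [Set.inter_eq_left.mpr hsU] at h0
  exact result H T hred hc h0 U hUo hsU hI

end Pool.Agent.Results.MP_49c4d9_an.ReductiveLogIntegrable
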