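import Pool.Agent.W706.HIR.Final

/-!
# Reductive perturbations of normal operators with spectrum on a rectifiable curve are normal

Let `T = N + K` be a bounded operator on a complex Hilbert space, where `N` is normal with spectrum
on a rectifiable curve (a Lipschitz image of `[0,1]`; no other regularity, self-intersections
allowed) and `K` belongs to a Schatten class (or only has approximation numbers `O(m^(-ε))`). If `T`
is reductive, then `T` is normal. For the line and the circle this is the theorem of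
Nordgren, Radjavi and Rosenthal.

Outline. (a) Let `T` be reductive with compact self-commutator `C = T*T - TT*`. The orthogonal
complement of a hyperinvariant subspace is hyperinvariant. If `C ≠ 0`, choose an eigenvalue `μ ≠ 0`
of `C` and a hyperinvariant `V` for which `V ∩ ker (C - μ)` has the smallest positive dimension, and
let `U` be the smallest hyperinvariant subspace with the same intersection; then `T|U` is not scalar
and has no nontrivial hyperinvariant subspace. So it is enough to find hyperinvariant subspaces of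
the restrictions of `T`. (b) The eigenvalues of `T` off the curve are moved to the curve by an
operator `Δ` which has approximation numbers of polynomial decay again; `N + K + Δ` has its
spectrum on the curve, and its resolvent, hence also the resolvents of the restrictions of `T` to
reducing subspaces without such eigenvalues, have growth `exp (C / dist ^ A)` at the curve outside
cones about the tangents, so that these restrictions have hyperinvariant subspaces by the separation
theorem of project HI (generic lines and an asymptotically holomorphic functional calculus).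
(c) A restriction whose spectrum is one point is compact up to a scalar (Lomonosov).
-/

set_option autoImplicit false

open Metric

namespace Pool.Agent.Results.MP_49c4d9_an.ReductiveRectifiable

/-- `T` is reductive: every closed invariant subspace of `T` is invariant under the adjoint. -/
def Reductive {H : Type} [NormedAddCommGroup H] [InnerProductSpace ℂ H] [CompleteSpace H]
    (T : H →L[ℂ] H) : Prop :=
  ∀ V : Submodule ℂ H, IsClosed (V : Set H) → (∀ x ∈ V, T x ∈ V) →
    ∀ x ∈ V, ContinuousLinearMap.adjoint T x ∈ V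

/-- The approximation number `a_m(K)`: the distance in operator norm from `K` to the set of
operators of rank at most `m` (on a Hilbert space this is the singular number `s_{m+1}(K)`). -/
noncomputable def approxNumber {H : Type} [NormedAddCommGroup H] [InnerProductSpace ℂ H]
    (K : H →L[ℂ] H) (m : ℕ) : ℝ :=
  sInf {r : ℝ | ∃ G : H →L[ℂ] H, FiniteDimensional ℂ (LinearMap.range (G : H →ₗ[ℂ] H)) ∧
    Module.finrank ℂ (LinearMap.range (G : H →ₗ[ℂ] H)) ≤ m ∧ r = ‖K - G‖}

/-- The approximation numbers of `K` decay polynomially. -/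
def PolyDecay {H : Type} [NormedAddCommGroup H] [InnerProductSpace ℂ H] (K : H →L[ℂ] H) : Prop :=
  ∃ C ε : ℝ, 0 < ε ∧ ∀ m : ℕ, 1 ≤ m → approxNumber K m ≤ C / (m : ℝ) ^ ε

/-- `K` is in a Schatten class. -/
def InSchatten {H : Type} [NormedAddCommGroup H] [InnerProductSpace ℂ H] (K : H →L[ℂ] H) : Prop :=
  ∃ p : ℝ, 0 < p ∧ Summable fun m : ℕ => approxNumber K m ^ p

/-- `Γ` is a rectifiable curve: the image of `[0,1]` under a Lipschitz map. -/
def RectifiableCurve (Γ : Set ℂ) : Prop :=
  ∃ (γ : ℝ → ℂ) (L : NNReal), LipschitzWith L γ ∧ Γ = γ '' Set.Icc 0 1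

/-- The resolvent of `S` exists off `Γ` and grows at most polynomially at `Γ`. -/
def PolyGrowth {H : Type} [NormedAddCommGroup H] [InnerProductSpace ℂ H] (S : H →L[ℂ] H)
    (Γ : Set ℂ) : Prop :=
  (∀ z, z ∉ Γ → z ∈ resolventSet ℂ S) ∧
    ∃ (C : ℝ) (k : ℕ), ∀ z, z ∉ Γ → infDist z Γ ≤ 1 → ‖resolvent S z‖ ≤ C / infDist z Γ ^ k

/-- The self-commutator of `T` is compact. -/
def EssNormal {H : Type} [NormedAddCommGroup H] [InnerProductSpace ℂ H] [CompleteSpace H]
    (T : H →L[ℂ] H) : Prop :=
  IsCompactOperator (ContinuousLinearMap.adjoint T * T - T * ContinuousLinearMap.adjoint T :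
    H →L[ℂ] H)

/-- Part (1): normal `N` with spectrum on a rectifiable curve, `K` with polynomial decay. -/
def PartOne : Prop :=
  ∀ (H : Type) [NormedAddCommGroup H] [InnerProductSpace ℂ H] [CompleteSpace H]
    (N K : H →L[ℂ] H) (Γ : Set ℂ), RectifiableCurve Γ → IsStarNormal N → spectrum ℂ N ⊆ Γ →
    PolyDecay K → Reductive (N + K) → IsStarNormal (N + K)

/-- Part (2): the same for `K` in a Schatten class. -/
def PartTwo : Prop :=
  ∀ (H : Type) [NormedAddCommGroup H] [InnerProductSpace ℂ H] [CompleteSpace H]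
    (N K : H →L[ℂ] H) (Γ : Set ℂ), RectifiableCurve Γ → IsStarNormal N → spectrum ℂ N ⊆ Γ →
    InSchatten K → Reductive (N + K) → IsStarNormal (N + K)

/-- Part (3): `S` with resolvent of polynomial growth, `S + K` essentially normal. -/
def PartThree : Prop :=
  ∀ (H : Type) [NormedAddCommGroup H] [InnerProductSpace ℂ H] [CompleteSpace H]
    (S K : H →L[ℂ] H) (Γ : Set ℂ), RectifiableCurve Γ → PolyGrowth S Γ →
    PolyDecay K → EssNormal (S + K) → Reductive (S + K) → IsStarNormal (S + K)

section aux

variable {H : Type} [NormedAddCommGroup H] [InnerProductSpace ℂ H]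

theorem bdd (K : H →L[ℂ] H) (m : ℕ) :
    BddBelow {r : ℝ | ∃ G : H →L[ℂ] H, FiniteDimensional ℂ (LinearMap.range (G : H →ₗ[ℂ] H)) ∧
      Module.finrank ℂ (LinearMap.range (G : H →ₗ[ℂ] H)) ≤ m ∧ r = ‖K - G‖} := by
  refine ⟨0, ?_⟩
  rintro r ⟨G, -, -, rfl⟩
  exact norm_nonneg _

theorem ne (K : H →L[ℂ] H) (m : ℕ) :
    {r : ℝ | ∃ G : H →L[ℂ] H, FiniteDimensional ℂ (LinearMap.range (G : H →ₗ[ℂ] H)) ∧
      Module.finrank ℂ (LinearMap.range (G : H →ₗ[ℂ] H)) ≤ m ∧ r = ‖K - G‖}.Nonempty := by
  have h0 : LinearMap.range ((0 : H →L[ℂ] H) : H →ₗ[ℂ] H) = ⊥ := LinearMap.range_zero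
  refine ⟨‖K - 0‖, 0, ?_, ?_, rfl⟩
  · rw [h0]; infer_instance
  · rw [h0]; simp

theorem approx_nonneg (K : H →L[ℂ] H) (m : ℕ) : 0 ≤ approxNumber K m := by
  refine le_csInf (ne K m) ?_
  rintro r ⟨G, -, -, rfl⟩
  exact norm_nonneg _

theorem approx_anti (K : H →L[ℂ] H) {m n : ℕ} (h : m ≤ n) :
    approxNumber K n ≤ approxNumber K m := by
  refine csInf_le_csInf (bdd K n) (ne K m) ?_
  rintro r ⟨G, h1, h2, rfl⟩
  exact ⟨G, h1, h2.trans h, rfl⟩

theorem decay_of {K : H →L[ℂ] H}
    (h : ∃ C ε : ℝ, 0 < ε ∧ ∀ m : ℕ, 1 ≤ m → approxNumber K m ≤ C / (m : ℝ) ^ ε) :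
    Pool.Agent.W402.HI.ApproxDecay K := by
  obtain ⟨C, ε, hε, h⟩ := h
  refine ⟨C + 1, ε, hε, fun m hm => ?_⟩
  have hm0 : (0 : ℝ) < m := by exact_mod_cast hm
  have h1 : approxNumber K m < (C + 1) / (m : ℝ) ^ ε := by
    refine (h m hm).trans_lt ?_
    have : (0 : ℝ) < (m : ℝ) ^ ε := by positivity
    gcongr
    linarith
  obtain ⟨r, ⟨G, hG1, hG2, rfl⟩, hr⟩ := exists_lt_of_csInf_lt (ne K m) h1
  exact ⟨G, hG1, hG2, hr.le⟩

theorem decay_of_summable {K : H →L[ℂ] H}
    (h : ∃ p : ℝ, 0 < p ∧ Summable fun m : ℕ => approxNumber K m ^ p) :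
    ∃ C ε : ℝ, 0 < ε ∧ ∀ m : ℕ, 1 ≤ m → approxNumber K m ≤ C / (m : ℝ) ^ ε := by
  obtain ⟨p, hp, hs⟩ := h
  set S : ℝ := ∑' m : ℕ, approxNumber K m ^ p with hS
  have hS0 : 0 ≤ S := tsum_nonneg fun m => Real.rpow_nonneg (approx_nonneg K m) _
  refine ⟨S ^ (1 / p), 1 / p, by positivity, fun m hm => ?_⟩
  have hm0 : (0 : ℝ) < m := by exact_mod_cast hm
  have h1 : (m : ℝ) * approxNumber K m ^ p ≤ S := by
    calc (m : ℝ) * approxNumber K m ^ p = ∑ _i ∈ Finset.range m, approxNumber K m ^ p := by simp
      _ ≤ ∑ i ∈ Finset.range m, approxNumber K i ^ p := by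
          refine Finset.sum_le_sum fun i hi => ?_
          exact Real.rpow_le_rpow (approx_nonneg K m) (approx_anti K (Finset.mem_range.1 hi).le) hp.le
      _ ≤ S := hs.sum_le_tsum _ fun i _ => Real.rpow_nonneg (approx_nonneg K i) _
  have h2 : approxNumber K m ^ p ≤ S / m := by
    rw [le_div_iff₀ hm0]
    linarith
  have h3 : (approxNumber K m ^ p) ^ (1 / p) ≤ (S / m) ^ (1 / p) :=
    Real.rpow_le_rpow (Real.rpow_nonneg (approx_nonneg K m) _) h2 (by positivity)
  rw [← Real.rpow_mul (approx_nonneg K m), mul_one_div_cancel hp.ne', Real.rpow_one,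
    Real.div_rpow hS0 hm0.le] at h3
  exact h3

end aux

/-- **Theorem.** (1) `N` normal with spectrum on a rectifiable curve, `K` with approximation numbers
`O(m^(-ε))`, `N + K` reductive: then `N + K` is normal. (2) In particular for `K` in a Schatten class.
(3) The same for `S + K`, where `S` is any operator whose spectrum lies on the curve and whose
resolvent grows at most polynomially at the curve, if the self-commutator of `S + K` is compact. -/
theorem result : PartOne ∧ PartTwo ∧ PartThree := by
  refine ⟨?_, ?_, ?_⟩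
  · rintro H _ _ _ N K Γ ⟨γ, L, hγ, rfl⟩ hN hs hK hred
    exact Pool.Agent.W706.HIR.final_normal N K hN γ L hγ hs (decay_of hK) hred
  · rintro H _ _ _ N K Γ ⟨γ, L, hγ, rfl⟩ hN hs hK hred
    exact Pool.Agent.W706.HIR.final_normal N K hN γ L hγ hs (decay_of (decay_of_summable hK)) hred
  · rintro H _ _ _ S K Γ ⟨γ, L, hγ, rfl⟩ hS hK hsc hred
    exact Pool.Agent.W706.HIR.final_general S K γ L hγ hS.1 hS.2 (decay_of hK) hred hsc

end Pool.Agent.Results.MP_49c4d9_an.ReductiveRectifiable
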